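import Pool.Agent.W313.HB.Stm

/-!
HB-COMMON: few pairs of values of a polynomial have a large common prime factor.
-/

set_option autoImplicit false

namespace Pool.Agent.W290.HB

open Finset Polynomial
open Pool.Agent.W313.HB

/-- The arguments at which the value is divisible by `q`. -/
noncomputable def AA (F : ℤ[X]) (t1 M U q : ℕ) : Finset ℕ := by
  classical
  exact (Ioc U (2 * U)).filter (fun u => (q : ℤ) ∣ val F t1 M u)

theorem mem_AA (F : ℤ[X]) (t1 M U q u : ℕ) :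
    u ∈ AA F t1 M U q ↔ (U < u ∧ u ≤ 2 * U) ∧ (q : ℤ) ∣ val F t1 M u := by
  classical
  unfold AA
  rw [mem_filter, mem_Ioc]

theorem card_AA (F : ℤ[X]) (hF : F ≠ 0) (t1 M U q : ℕ) (hq : q.Prime)
    (hqF : F.leadingCoeff.natAbs < q) (hqM : ¬ q ∣ M) :
    (AA F t1 M U q).card ≤ F.natDegree * (U / q + 1) := by
  classical
  have : Fact q.Prime := ⟨hq⟩
  set Fq : (ZMod q)[X] := F.map (Int.castRingHom (ZMod q)) with hFq
  have hlc : ((F.leadingCoeff : ℤ) : ZMod q) ≠ 0 := by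
    rw [Ne, ZMod.intCast_zmod_eq_zero_iff_dvd]
    intro hd
    have h4 : q ∣ F.leadingCoeff.natAbs := Int.natCast_dvd.1 hd
    have h5 := Nat.le_of_dvd (Int.natAbs_pos.2 (leadingCoeff_ne_zero.2 hF)) h4
    omega
  have hFq0 : Fq ≠ 0 := by
    intro h0
    apply hlc
    have h1 : Fq.coeff F.natDegree = 0 := by rw [h0]; simp
    rw [hFq, coeff_map] at h1
    exact h1
  have hM0 : (M : ZMod q) ≠ 0 := by
    rw [Ne, ZMod.natCast_eq_zero_iff]
    exact hqM
  have hdeg : Fq.natDegree ≤ F.natDegree := natDegree_map_le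
  have hrc : Fq.roots.toFinset.card ≤ F.natDegree :=
    (Multiset.toFinset_card_le _).trans ((card_roots' Fq).trans hdeg)
  calc (AA F t1 M U q).card ≤ (Fq.roots.toFinset ×ˢ range (U / q + 1)).card := by
        apply card_le_card_of_injOn
          (fun u : ℕ => (((t1 : ZMod q) + (M : ZMod q) * (u : ZMod q)), (u - U - 1) / q))
        · intro u hu
          rw [mem_coe, mem_AA] at hu
          rw [mem_coe, mem_product, Multiset.mem_toFinset, mem_roots hFq0, mem_range]
          constructor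
          · show Fq.eval ((t1 : ZMod q) + (M : ZMod q) * (u : ZMod q)) = 0
            have h1 : Fq.eval ((t1 : ZMod q) + (M : ZMod q) * (u : ZMod q)) =
                ((val F t1 M u : ℤ) : ZMod q) := by
              unfold Pool.Agent.W313.HB.val
              rw [hFq]
              have h2 : ((t1 : ZMod q) + (M : ZMod q) * (u : ZMod q)) =
                  Int.castRingHom (ZMod q) ((t1 : ℤ) + (M : ℤ) * (u : ℤ)) := by simp
              rw [h2, eval_map_apply]
              rfl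
            rw [h1, ZMod.intCast_zmod_eq_zero_iff_dvd]
            exact hu.2
          · show (u - U - 1) / q < U / q + 1
            exact Nat.lt_succ_of_le (Nat.div_le_div_right (by omega))
        · intro u hu v hv huv
          rw [mem_coe, mem_AA] at hu hv
          have h1 : (t1 : ZMod q) + (M : ZMod q) * (u : ZMod q) =
              (t1 : ZMod q) + (M : ZMod q) * (v : ZMod q) := congrArg Prod.fst huv
          have h2 : (u - U - 1) / q = (v - U - 1) / q := congrArg Prod.snd huv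
          have h3 : (u : ZMod q) = (v : ZMod q) := mul_left_cancel₀ hM0 (add_left_cancel h1)
          have h4 : ((u - U - 1 : ℕ) : ZMod q) = ((v - U - 1 : ℕ) : ZMod q) := by
            have e1 : ((u - U - 1 : ℕ) : ZMod q) + ((U + 1 : ℕ) : ZMod q) = (u : ZMod q) := by
              rw [← Nat.cast_add]
              congr 1
              omega
            have e2 : ((v - U - 1 : ℕ) : ZMod q) + ((U + 1 : ℕ) : ZMod q) = (v : ZMod q) := by
              rw [← Nat.cast_add]
              congr 1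
              omega
            exact add_right_cancel ((e1.trans h3).trans e2.symm)
          have h5 : (u - U - 1) % q = (v - U - 1) % q := (ZMod.natCast_eq_natCast_iff' _ _ _).1 h4
          have h6 : u - U - 1 = v - U - 1 := by
            rw [← Nat.div_add_mod (u - U - 1) q, ← Nat.div_add_mod (v - U - 1) q, h2, h5]
          omega
    _ = Fq.roots.toFinset.card * (U / q + 1) := by rw [card_product, card_range]
    _ ≤ _ := Nat.mul_le_mul_right _ hrc

theorem card_big (a : ℤ) (ha : a ≠ 0) (U C : ℕ) (hle : |a| ≤ (U : ℤ) ^ C) (s : Finset ℕ)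
    (hs : ∀ q ∈ s, q.Prime ∧ U < q ∧ (q : ℤ) ∣ a) : s.card ≤ C := by
  by_contra hcon
  push Not at hcon
  have h1 : ∏ q ∈ s, q ∣ a.natAbs := by
    apply Finset.prod_primes_dvd
    · intro q hq
      exact (hs q hq).1.prime
    · intro q hq
      exact Int.natCast_dvd.1 (hs q hq).2.2
  have h2 : ∏ q ∈ s, q ≤ a.natAbs := Nat.le_of_dvd (Int.natAbs_pos.2 ha) h1
  have h3 : (U + 1) ^ s.card ≤ ∏ q ∈ s, q := by
    rw [← Finset.prod_const]
    exact Finset.prod_le_prod' fun q hq => (hs q hq).2.1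
  have h4 : (U + 1) ^ (C + 1) ≤ (U + 1) ^ s.card := Nat.pow_le_pow_right (by omega) hcon
  have h5 : a.natAbs ≤ U ^ C := by
    have : ((a.natAbs : ℕ) : ℤ) ≤ ((U ^ C : ℕ) : ℤ) := by
      rw [Int.natCast_natAbs]; push_cast; exact hle
    exact_mod_cast this
  have h6 : U ^ C ≤ (U + 1) ^ C := Nat.pow_le_pow_left (by omega) C
  have h7 : (U + 1) ^ C < (U + 1) ^ (C + 1) ∨ U = 0 := by
    rcases Nat.eq_zero_or_pos U with h | h
    · exact Or.inr h
    · left
      exact Nat.pow_lt_pow_right (by omega) (by omega)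
  rcases h7 with h7 | h7
  · omega
  · subst h7
    have h8 : ∏ q ∈ s, q ≤ 1 := by
      refine h2.trans (h5.trans ?_)
      rcases C with _ | C <;> simp
    obtain ⟨q, hq⟩ : s.Nonempty := card_pos.1 (by omega)
    have h9 : q ∣ ∏ q ∈ s, q := Finset.dvd_prod_of_mem _ hq
    have h10 : 0 < ∏ q ∈ s, q := Finset.prod_pos fun q hq => (hs q hq).1.pos
    have h11 := Nat.le_of_dvd h10 h9
    have h12 := (hs q hq).1.two_le
    omega

theorem common_ (h : S_SIZE) : S_COMMON := by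
  classical
  intro F hF
  obtain ⟨C0, U0, hs⟩ := h F hF
  set d := F.natDegree with hd
  refine ⟨4 * (d : ℝ) ^ 2 + d * C0, U0 + 1, F.leadingCoeff.natAbs + 1, by positivity, ?_⟩
  intro U hU E hE M t1 hM hMU ht1
  set A := AA F t1 M U with hA
  set Qs : Finset ℕ := (range (U ^ C0 + 1)).filter (fun q => q.Prime ∧ E < q ∧ ¬ q ∣ M) with hQs
  have hval : ∀ u, U < u → u ≤ 2 * U → val F t1 M u ≠ 0 ∧ |val F t1 M u| ≤ (U : ℤ) ^ C0 := by
    intro u h1 h2
    obtain ⟨h3, h4, _⟩ := hs U (by omega) M t1 u hM hMU ht1 h1 h2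
    exact ⟨h3, h4⟩
  have hsub : ((Ioc U (2 * U)) ×ˢ (Ioc U (2 * U))).filter (fun x : ℕ × ℕ => ∃ q : ℕ, q.Prime ∧
      E < q ∧ ¬ q ∣ M ∧ (q : ℤ) ∣ val F t1 M x.1 ∧ (q : ℤ) ∣ val F t1 M x.2) ⊆
      Qs.biUnion (fun q => A q ×ˢ A q) := by
    rintro ⟨u, v⟩ hx
    rw [mem_filter, mem_product, mem_Ioc, mem_Ioc] at hx
    obtain ⟨⟨hu, hv⟩, q, hq, hEq, hqM, hqu, hqv⟩ := hx
    rw [mem_biUnion]
    refine ⟨q, ?_, ?_⟩
    · rw [hQs, mem_filter, mem_range]
      refine ⟨?_, hq, hEq, hqM⟩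
      obtain ⟨h1, h2⟩ := hval u hu.1 hu.2
      have h3 : q ∣ (val F t1 M u).natAbs := Int.natCast_dvd.1 hqu
      have h4 := Nat.le_of_dvd (Int.natAbs_pos.2 h1) h3
      have h5 : (val F t1 M u).natAbs ≤ U ^ C0 := by
        have : (((val F t1 M u).natAbs : ℕ) : ℤ) ≤ ((U ^ C0 : ℕ) : ℤ) := by
          rw [Int.natCast_natAbs]; push_cast; exact h2
        exact_mod_cast this
      omega
    · rw [mem_product, hA, mem_AA, mem_AA]
      exact ⟨⟨hu, hqu⟩, ⟨hv, hqv⟩⟩
  have hcard : ((((Ioc U (2 * U)) ×ˢ (Ioc U (2 * U))).filter (fun x : ℕ × ℕ => ∃ q : ℕ, q.Prime ∧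
      E < q ∧ ¬ q ∣ M ∧ (q : ℤ) ∣ val F t1 M x.1 ∧ (q : ℤ) ∣ val F t1 M x.2)).card : ℝ) ≤
      ∑ q ∈ Qs, ((A q).card : ℝ) ^ 2 := by
    have h1 := (card_le_card hsub).trans card_biUnion_le
    have h2 : ∑ q ∈ Qs, (A q ×ˢ A q).card = ∑ q ∈ Qs, (A q).card ^ 2 :=
      sum_congr rfl fun q _ => by rw [card_product, sq]
    rw [h2] at h1
    exact_mod_cast h1
  refine hcard.trans ?_
  rw [← sum_filter_add_sum_filter_not Qs (fun q => q ≤ U)]
  have hE0 : 0 < E := by omega
  have hE0' : (0 : ℝ) < E := by exact_mod_cast hE0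
  -- small primes
  have hsmall : ∑ q ∈ Qs.filter (fun q => q ≤ U), ((A q).card : ℝ) ^ 2 ≤
      4 * (d : ℝ) ^ 2 * ((U : ℝ) ^ 2 / E) := by
    rcases le_or_gt E U with hEU | hEU
    · have h1 : ∀ q ∈ Qs.filter (fun q => q ≤ U), ((A q).card : ℝ) ^ 2 ≤
          4 * (d : ℝ) ^ 2 * (U : ℝ) ^ 2 * ((q : ℝ) ^ 2)⁻¹ := by
        intro q hq
        rw [mem_filter, hQs, mem_filter] at hq
        obtain ⟨⟨_, hqp, hEq, hqM⟩, hqU⟩ := hq
        have hq0 : (0 : ℝ) < q := by exact_mod_cast hqp.pos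
        have h2 : (A q).card ≤ d * (U / q + 1) := card_AA F hF t1 M U q hqp (by omega) hqM
        have h3 : ((A q).card : ℝ) ≤ d * (((U / q : ℕ) : ℝ) + 1) := by exact_mod_cast h2
        have h4 : ((U / q : ℕ) : ℝ) ≤ (U : ℝ) / q := Nat.cast_div_le
        have h5 : (1 : ℝ) ≤ (U : ℝ) / q := by
          rw [le_div_iff₀ hq0, one_mul]; exact_mod_cast hqU
        have h6 : ((A q).card : ℝ) ≤ 2 * d * ((U : ℝ) / q) := by
          refine h3.trans ?_
          have : (d : ℝ) * (((U / q : ℕ) : ℝ) + 1) ≤ d * (2 * ((U : ℝ) / q)) :=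
            mul_le_mul_of_nonneg_left (by linarith) (by positivity)
          linarith
        calc ((A q).card : ℝ) ^ 2 ≤ (2 * d * ((U : ℝ) / q)) ^ 2 :=
              pow_le_pow_left₀ (by positivity) h6 2
          _ = _ := by field_simp; ring
      refine (sum_le_sum h1).trans ?_
      rw [← mul_sum]
      have h7 : ∑ q ∈ Qs.filter (fun q => q ≤ U), ((q : ℝ) ^ 2)⁻¹ ≤ (E : ℝ)⁻¹ := by
        have h8 : Qs.filter (fun q => q ≤ U) ⊆ Ioc E U := by
          intro q hq
          rw [mem_filter, hQs, mem_filter] at hq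
          rw [mem_Ioc]
          exact ⟨hq.1.2.2.1, hq.2⟩
        have h9 := sum_Ioc_inv_sq_le_sub (α := ℝ) hE0.ne' hEU
        have h10 : ∑ q ∈ Qs.filter (fun q => q ≤ U), ((q : ℝ) ^ 2)⁻¹ ≤
            ∑ q ∈ Ioc E U, ((q : ℝ) ^ 2)⁻¹ :=
          sum_le_sum_of_subset_of_nonneg h8 fun q _ _ => by positivity
        have h11 : (0 : ℝ) ≤ (U : ℝ)⁻¹ := by positivity
        linarith
      calc 4 * (d : ℝ) ^ 2 * (U : ℝ) ^ 2 * ∑ q ∈ Qs.filter (fun q => q ≤ U), ((q : ℝ) ^ 2)⁻¹
          ≤ 4 * (d : ℝ) ^ 2 * (U : ℝ) ^ 2 * (E : ℝ)⁻¹ :=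
            mul_le_mul_of_nonneg_left h7 (by positivity)
        _ = _ := by ring
    · have h1 : Qs.filter (fun q => q ≤ U) = ∅ := by
        rw [filter_eq_empty_iff]
        intro q hq
        rw [hQs, mem_filter] at hq
        omega
      rw [h1, sum_empty]
      positivity
  -- large primes
  have hlarge : ∑ q ∈ Qs.filter (fun q => ¬ q ≤ U), ((A q).card : ℝ) ^ 2 ≤ d * C0 * U := by
    set Q2 := Qs.filter (fun q => ¬ q ≤ U) with hQ2
    have hmem : ∀ q ∈ Q2, q.Prime ∧ U < q ∧ (A q).card ≤ d := by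
      intro q hq
      rw [hQ2, mem_filter, hQs, mem_filter] at hq
      obtain ⟨⟨_, hqp, hEq, hqM⟩, hqU⟩ := hq
      have hqU : U < q := not_le.1 hqU
      refine ⟨hqp, hqU, ?_⟩
      have h2 : (A q).card ≤ d * (U / q + 1) := card_AA F hF t1 M U q hqp (by omega) hqM
      rwa [Nat.div_eq_of_lt hqU, zero_add, mul_one] at h2
    have h1 : ∑ q ∈ Q2, ((A q).card : ℝ) ^ 2 ≤ ∑ q ∈ Q2, (d : ℝ) * ((A q).card : ℝ) := by
      refine sum_le_sum fun q hq => ?_
      rw [sq]
      apply mul_le_mul_of_nonneg_right _ (by positivity)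
      exact_mod_cast (hmem q hq).2.2
    refine h1.trans ?_
    rw [← mul_sum, mul_assoc]
    apply mul_le_mul_of_nonneg_left _ (by positivity)
    have h2 : ∑ q ∈ Q2, (A q).card ≤ C0 * U := by
      have h3 : ∀ q, (A q).card = ∑ u ∈ Ioc U (2 * U), if (q : ℤ) ∣ val F t1 M u then 1 else 0 := by
        intro q
        rw [← card_filter]
        congr 1
      rw [sum_congr rfl fun q _ => h3 q, sum_comm]
      have h4 : ∀ u ∈ Ioc U (2 * U), (∑ q ∈ Q2, if (q : ℤ) ∣ val F t1 M u then 1 else 0) ≤ C0 := by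
        intro u hu
        rw [mem_Ioc] at hu
        rw [← card_filter]
        obtain ⟨h5, h6⟩ := hval u hu.1 hu.2
        apply card_big (val F t1 M u) h5 U C0 h6
        intro q hq
        rw [mem_filter] at hq
        exact ⟨(hmem q hq.1).1, (hmem q hq.1).2.1, hq.2⟩
      refine (sum_le_sum h4).trans ?_
      rw [sum_const, Nat.card_Ioc, smul_eq_mul]
      apply le_of_eq
      rw [show 2 * U - U = U by omega, mul_comm]
    exact_mod_cast h2
  have hU2 : (0 : ℝ) ≤ (U : ℝ) ^ 2 / E := by positivity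
  have hU1 : (0 : ℝ) ≤ (U : ℝ) := by positivity
  have e1 : (0 : ℝ) ≤ d * C0 * ((U : ℝ) ^ 2 / E) := by positivity
  have e2 : (0 : ℝ) ≤ 4 * (d : ℝ) ^ 2 * (U : ℝ) := by positivity
  calc _ ≤ 4 * (d : ℝ) ^ 2 * ((U : ℝ) ^ 2 / E) + d * C0 * U := add_le_add hsmall hlarge
    _ ≤ _ := by ring_nf; ring_nf at e1 e2; linarith

end Pool.Agent.W290.HB
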